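import Pool.Agent.H10.GM.Targets1

/-! `KM`: connected sets and disjoint links between them give a complete minor. -/

set_option autoImplicit false

namespace Pool.Agent.H95.GM

open Pool.Agent.H55.GW Pool.Agent.H10.GM

theorem km_in {V : Type} {E : V → V → Prop} {O S : Set V} {x y : V} (hx : x ∈ O)
    (h : RIn (rs E O) S x y) : RIn E (S ∩ O) x y := by
  obtain ⟨h1, h2⟩ := h
  induction h2 with
  | refl => exact RIn.refl ⟨h1, hx⟩
  | @tail b c h3 h4 ih => exact ih.tail h4.1.1 ⟨h4.2, h4.1.2.2⟩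

theorem pf_KM : T_KM := by
  intro m V E hE A O hA hAA x y S hS hSS
  set S1 : ℕ → ℕ → Set V := fun i j => {z | RIn E (S i j ∩ O) (x i j) z} with hS1
  have hsub : ∀ i j, S1 i j ⊆ S i j ∩ O := fun i j z hz => RIn.right_mem hz
  have hx : ∀ i j, i < j → j < m → x i j ∈ S i j ∩ O := fun i j h1 h2 =>
    ⟨(hS i j h1 h2).2.2.2.2.left_mem, (hS i j h1 h2).1⟩
  have hy : ∀ i j, i < j → j < m → y i j ∈ S1 i j := fun i j h1 h2 =>
    km_in (hS i j h1 h2).1 (hS i j h1 h2).2.2.2.2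
  have htch : ∀ i j, i < j → j < m →
      Tch E (A i ∪ ⋃ j : {j : ℕ // i < j ∧ j < m}, S1 i j) (A j ∪ ⋃ l : {l : ℕ // j < l ∧ l < m},
        S1 j l) := by
    intro i j h1 h2
    obtain ⟨a, ha, hya⟩ := (hS i j h1 h2).2.2.2.1
    exact ⟨y i j, Or.inr (Set.mem_iUnion.2 ⟨⟨j, h1, h2⟩, hy i j h1 h2⟩), a, Or.inl ha, hya⟩
  refine ⟨fun i => A i ∪ ⋃ j : {j : ℕ // i < j ∧ j < m}, S1 i j, ?_, ?_, ?_⟩
  · intro i hi
    refine Cn.iUnion hE (hA i hi).1 (fun j => Cn.comp hE (hx i j j.2.1 j.2.2)) fun j => Or.inr ?_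
    obtain ⟨a, ha, hxa⟩ := (hS i j j.2.1 j.2.2).2.2.1
    exact ⟨a, ha, x i j, RIn.refl (hx i j j.2.1 j.2.2), hE _ _ hxa⟩
  · intro i hi j hj hij
    rw [Set.disjoint_left]
    rintro z (hz | hz) (hz' | hz')
    · exact Set.disjoint_left.1 (hAA i hi j hj hij) hz hz'
    · obtain ⟨l, hl⟩ := Set.mem_iUnion.1 hz'
      exact Set.disjoint_left.1 (hA i hi).2 hz (hsub _ _ hl).2
    · obtain ⟨l, hl⟩ := Set.mem_iUnion.1 hz
      exact Set.disjoint_left.1 (hA j hj).2 hz' (hsub _ _ hl).2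
    · obtain ⟨l, hl⟩ := Set.mem_iUnion.1 hz
      obtain ⟨l', hl'⟩ := Set.mem_iUnion.1 hz'
      exact Set.disjoint_left.1 (hSS i l l.2.1 l.2.2 j l' l'.2.1 l'.2.2 (Or.inl hij))
        (hsub _ _ hl).1 (hsub _ _ hl').1
  · intro i hi j hj hij
    rcases lt_or_gt_of_ne hij with h | h
    · exact htch i j h hj
    · exact Tch.sy hE (htch j i h hi)

end Pool.Agent.H95.GM
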