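import Pool.Agent.H10.GM.Targets2

/-! `NLU`: disjoint unions. -/

set_option autoImplicit false

namespace Pool.Agent.H95.GM

open Pool.Agent.H55.GW Pool.Agent.H10.GM Pool.Agent.H8.VR

theorem pf_NLU : T_NLU := by
  classical
  intro V k E hE F c hF
  induction hF using Finset.Nonempty.cons_induction with
  | singleton X =>
    intro h1 _
    have h2 : (⋃ Y ∈ ({X} : Finset (Set V)), Y) = X := by simp
    rw [h2]
    exact h1 X (Finset.mem_singleton_self X)
  | cons X F hX hF ih =>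
    intro h1 h2
    have h3 : (⋃ Y ∈ Finset.cons X F hX, Y) = X ∪ ⋃ Y ∈ F, Y := by
      simp [Set.iUnion_or, Set.iUnion_union_distrib]
    rw [h3]
    have h4 : ∀ Y ∈ F, Disjoint X Y ∧ ¬ Tch E X Y := fun Y hY =>
      h2 X (Finset.mem_cons_self X F) Y (Finset.mem_cons_of_mem hY) fun h => hX (h ▸ hY)
    refine NLC.op X (⋃ Y ∈ F, Y) c c c (h1 X (Finset.mem_cons_self X F))
      (ih (fun Y hY => h1 Y (Finset.mem_cons_of_mem hY)) fun Y hY Z hZ =>
        h2 Y (Finset.mem_cons_of_mem hY) Z (Finset.mem_cons_of_mem hZ)) ?_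
      (fun _ _ _ => False) (fun _ _ _ => False) id id ?_ (fun _ _ => rfl) (fun _ _ => rfl)
    · rw [Set.disjoint_iUnion₂_right]
      exact fun Y hY => (h4 Y hY).1
    · intro a ha b hb i _
      obtain ⟨Y, hY, hbY⟩ := Set.mem_iUnion₂.1 hb
      refine ⟨⟨fun h => (h4 Y hY).2 ⟨a, ha, b, hbY, h⟩, False.elim⟩,
        ⟨fun h => (h4 Y hY).2 ⟨a, ha, b, hbY, hE b a h⟩, False.elim⟩⟩

end Pool.Agent.H95.GM
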